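import Mathlib
import Pool.Agent.X155.CubeMix

/-!
# Directed hypercube flows with edge capacities `1` and vertex capacities `r²`

The vertices of the directed hypercube `{0,1}^d` are written as finite subsets of `Fin d` (the set
of coordinates equal to one); `x ⊆ y` is the coordinatewise order and `x.card` the number of ones.
-/

set_option autoImplicit false

open Finset

namespace Pool.Agent.Results.MP_02b125_co.MixtureCounterexample

/-- The vertex set `{0,1}^d` of the directed hypercube: `x` is the set of coordinates equal to `1`. -/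
abbrev Cube (d : ℕ) : Type := Finset (Fin d)

/-- The directed edges `x → y`: the vertex `y` is obtained from `x` by changing one coordinate from
`0` to `1`. -/
def Edge {d : ℕ} (x y : Cube d) : Prop := ∃ i, i ∉ x ∧ y = insert i x

/-- `(A, B; φ)` is a matched pair with `A ⊆ S` and `B ⊆ Sᶜ`: `φ` is a bijection from `A` onto `B`
with `a ≺ φ(a)` for all `a ∈ A`. -/
structure IsMatchedPair {d : ℕ} (S A B : Finset (Cube d)) (φ : Cube d → Cube d) : Prop where
  left : A ⊆ S
  right : B ⊆ Sᶜ
  bij : Set.BijOn φ A B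
  lt : ∀ a ∈ A, a ⊂ φ a

/-- The directed volume: the largest `|A|` over matched pairs with `A ⊆ S`, `B ⊆ Sᶜ`. -/
noncomputable def dvol {d : ℕ} (S : Finset (Cube d)) : ℕ :=
  sSup {n | ∃ A B φ, IsMatchedPair S A B φ ∧ A.card = n}

/-- The separation distance of `S`: the minimum of the average of `|φ(a)| - |a|` over `a ∈ A`, over
all directed volume certificates `(A, B; φ)` of `S`. -/
noncomputable def separation {d : ℕ} (S : Finset (Cube d)) : ℝ :=
  sInf {t | ∃ A B φ, IsMatchedPair S A B φ ∧ A.card = dvol S ∧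
    t = (∑ a ∈ A, (((φ a).card : ℝ) - (a.card : ℝ))) / (A.card : ℝ)}

/-- A feasible flow in the network of `S`: `f x y` is the flow on the edge `x → y`, `s x` the flow
on the arc from the source to `x ∈ S`, `t x` the flow on the arc from `x ∈ Sᶜ` to the sink; edges
have capacity `cE`, and the total flow through each vertex is at most `cV`. -/
structure IsFlow {d : ℕ} (S : Finset (Cube d)) (cE cV : ℝ) (f : Cube d → Cube d → ℝ)
    (s t : Cube d → ℝ) : Prop where
  f_nonneg : ∀ x y, 0 ≤ f x y
  s_nonneg : ∀ x, 0 ≤ s x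
  t_nonneg : ∀ x, 0 ≤ t x
  f_edge : ∀ x y, ¬ Edge x y → f x y = 0
  s_supp : ∀ x, x ∉ S → s x = 0
  t_supp : ∀ x, x ∈ S → t x = 0
  edge_cap : ∀ x y, f x y ≤ cE
  conserve : ∀ x, s x + ∑ y, f y x = ∑ y, f x y + t x
  vertex_cap : ∀ x, s x + ∑ y, f y x ≤ cV

/-- The maximum value of a source-to-sink flow in the network of `S` with edge capacity `cE` and
vertex capacity `cV`. -/
noncomputable def maxflow {d : ℕ} (S : Finset (Cube d)) (cE cV : ℝ) : ℝ :=
  sSup {v | ∃ f s t, IsFlow S cE cV f s t ∧ v = ∑ x, s x}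

section construction

variable {d k n : ℕ} (K : Finset (Fin d)) (o : Fin d)

/-- the mixture set -/
def mix (k n : ℕ) : Finset (Cube d) :=
  univ.filter (fun x => if K ⊆ x then x.card ≤ k + n else o ∉ x)

theorem mem_mix {x : Cube d} : x ∈ mix K o k n ↔ if K ⊆ x then x.card ≤ k + n else o ∉ x := by
  simp [mix]

/-- the involution exchanging the mixture set and its complement -/
def inv (x : Cube d) : Cube d := if K ⊆ x then K ∪ xᶜ else symmDiff x {o}

variable {K o}

theorem card_union_compl (hK : K.card = k) {x : Cube d} (hx : K ⊆ x) :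
    (K ∪ xᶜ).card + x.card = k + d := by
  have hdis : Disjoint K xᶜ := by
    rw [disjoint_left]
    intro i hi hi2
    exact (mem_compl.1 hi2) (hx hi)
  have h1 := card_union_of_disjoint hdis
  have h2 := card_compl x
  have h3 : x.card ≤ d := by simpa using card_le_univ x
  rw [Fintype.card_fin] at h2
  omega

theorem subset_symm (ho : o ∉ K) {x : Cube d} : K ⊆ symmDiff x {o} ↔ K ⊆ x := by
  constructor
  · intro h i hi
    have h1 := h hi
    rw [mem_symmDiff] at h1
    rcases h1 with ⟨h1, _⟩ | ⟨h1, _⟩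
    · exact h1
    · rw [mem_singleton] at h1
      exact absurd (h1 ▸ hi) ho
  · intro h i hi
    rw [mem_symmDiff]
    left
    refine ⟨h hi, ?_⟩
    rw [mem_singleton]
    rintro rfl
    exact ho hi

theorem inv_inv (ho : o ∉ K) (x : Cube d) : inv K o (inv K o x) = x := by
  unfold inv
  by_cases h : K ⊆ x
  · simp only [h, if_true]
    rw [if_pos subset_union_left, compl_union, compl_compl]
    ext i
    simp only [mem_union, mem_inter, mem_compl]
    constructor
    · rintro (h1 | ⟨_, h1⟩)
      · exact h h1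
      · exact h1
    · intro h1
      by_cases h2 : i ∈ K
      · exact Or.inl h2
      · exact Or.inr ⟨h2, h1⟩
  · have h' : ¬ K ⊆ symmDiff x {o} := fun h2 => h ((subset_symm ho).1 h2)
    simp only [h, if_false, h']
    rw [symmDiff_assoc, symmDiff_self]
    simp

theorem inv_mem (hK : K.card = k) (ho : o ∉ K) (hd : d = k + (2 * n + 1)) (x : Cube d) :
    inv K o x ∈ mix K o k n ↔ x ∉ mix K o k n := by
  rw [mem_mix, mem_mix]
  unfold inv
  by_cases h : K ⊆ x
  · simp only [h, if_true]
    rw [if_pos subset_union_left]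
    have := card_union_compl hK h
    omega
  · have h' : ¬ K ⊆ symmDiff x {o} := fun h2 => h ((subset_symm ho).1 h2)
    simp only [h, if_false, h']
    simp [mem_symmDiff]

theorem card_mix_compl (hK : K.card = k) (ho : o ∉ K) (hd : d = k + (2 * n + 1)) :
    (mix K o k n)ᶜ.card = (mix K o k n).card := by
  apply card_bij' (fun x _ => inv K o x) (fun x _ => inv K o x)
  · intro x hx
    exact (inv_mem hK ho hd x).2 (mem_compl.1 hx)
  · intro x hx
    rw [mem_compl, inv_mem hK ho hd x]
    simpa using hx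
  · intro x _
    exact inv_inv ho x
  · intro x _
    exact inv_inv ho x

theorem card_mix (hK : K.card = k) (ho : o ∉ K) (hd : d = k + (2 * n + 1)) :
    (mix K o k n).card = 2 ^ k * 4 ^ n := by
  have h1 := card_mix_compl hK ho hd
  have h2 := card_add_card_compl (mix K o k n)
  rw [Fintype.card_finset, Fintype.card_fin] at h2
  have h3 : 2 ^ d = 2 * (2 ^ k * 4 ^ n) := by
    rw [hd, show (4 : ℕ) = 2 ^ 2 by norm_num, ← pow_mul, pow_add, pow_succ]
    ring
  omega

theorem exists_perfect (hK : K.card = k) (ho : o ∉ K) (hd : d = k + (2 * n + 1)) :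
    ∃ φ, IsMatchedPair (mix K o k n) (mix K o k n) ((mix K o k n).image φ) φ := by
  obtain ⟨f, hf, hf2⟩ := Pool.Agent.X155.CubeMix.exists_lower_matching K hK hd
  refine ⟨fun x => if K ⊆ x then f x else insert o x, ?_, ?_, ?_, ?_⟩
  · exact subset_rfl
  · intro y hy
    obtain ⟨x, hx, rfl⟩ := mem_image.1 hy
    rw [mem_mix] at hx
    rw [mem_compl, mem_mix]
    by_cases h : K ⊆ x
    · simp only [h, if_true] at hx ⊢
      obtain ⟨h1, h2⟩ := hf2 x h hx
      rw [if_pos (h.trans h1)]
      omega
    · simp only [h, if_false] at hx ⊢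
      have h' : ¬ K ⊆ insert o x := by
        intro h2
        apply h
        intro i hi
        rcases mem_insert.1 (h2 hi) with h3 | h3
        · exact absurd (h3 ▸ hi) ho
        · exact h3
      rw [if_neg h']
      simp
  · refine ⟨?_, ?_, ?_⟩
    · intro x hx
      exact mem_coe.2 (mem_image_of_mem _ (mem_coe.1 hx))
    · intro x hx y hy hxy
      have hx' := (mem_mix K o).1 (mem_coe.1 hx)
      have hy' := (mem_mix K o).1 (mem_coe.1 hy)
      by_cases h : K ⊆ x
      · by_cases h2 : K ⊆ y
        · simp only [h, h2, if_true] at hx' hy' hxy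
          exact hf (by simp [h, hx']) (by simp [h2, hy']) hxy
        · simp only [h, h2, if_true, if_false] at hx' hy' hxy
          exfalso
          obtain ⟨h1, _⟩ := hf2 x h hx'
          apply h2
          intro i hi
          have h3 : i ∈ insert o y := hxy ▸ h1 (h hi)
          rcases mem_insert.1 h3 with h4 | h4
          · exact absurd (h4 ▸ hi) ho
          · exact h4
      · by_cases h2 : K ⊆ y
        · simp only [h, h2, if_true, if_false] at hx' hy' hxy
          exfalso
          obtain ⟨h1, _⟩ := hf2 y h2 hy'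
          apply h
          intro i hi
          have h3 : i ∈ insert o x := hxy ▸ h1 (h2 hi)
          rcases mem_insert.1 h3 with h4 | h4
          · exact absurd (h4 ▸ hi) ho
          · exact h4
        · simp only [h, h2, if_false] at hx' hy' hxy
          have := congrArg (fun z => z.erase o) hxy
          simpa [erase_insert hx', erase_insert hy'] using this
    · intro y hy
      obtain ⟨x, hx, rfl⟩ := mem_image.1 (mem_coe.1 hy)
      exact ⟨x, mem_coe.2 hx, rfl⟩
  · intro x hx
    rw [mem_mix] at hx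
    by_cases h : K ⊆ x
    · simp only [h, if_true] at hx ⊢
      obtain ⟨h1, h2⟩ := hf2 x h hx
      rw [Finset.ssubset_iff_subset_ne]
      refine ⟨h1, ?_⟩
      intro h3
      rw [← h3] at h2
      omega
    · simp only [h, if_false] at hx ⊢
      exact ssubset_insert hx

theorem dvol_mix (hK : K.card = k) (ho : o ∉ K) (hd : d = k + (2 * n + 1)) :
    dvol (mix K o k n) = (mix K o k n).card := by
  unfold dvol
  apply IsGreatest.csSup_eq
  constructor
  · obtain ⟨φ, hφ⟩ := exists_perfect hK ho hd
    exact ⟨_, _, φ, hφ, rfl⟩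
  · rintro m ⟨A, B, φ, h, rfl⟩
    exact card_le_card h.left

/-- total weight difference -/
theorem cert_sum (hK : K.card = k) (ho : o ∉ K) (hd : d = k + (2 * n + 1))
    {A B : Finset (Cube d)} {φ : Cube d → Cube d} (h : IsMatchedPair (mix K o k n) A B φ)
    (hA : A.card = (mix K o k n).card) :
    A = mix K o k n ∧ (∑ a ∈ A, (((φ a).card : ℝ) - (a.card : ℝ))) =
      ∑ x ∈ mix K o k n, (((inv K o x).card : ℝ) - (x.card : ℝ)) := by
  have h1 : A = mix K o k n := eq_of_subset_of_card_le h.left hA.ge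
  have hB : B.card = A.card := by
    apply (card_bij (fun a _ => φ a) ?_ ?_ ?_).symm
    · intro a ha
      exact h.bij.mapsTo ha
    · intro a ha b hb hab
      exact h.bij.injOn ha hb hab
    · intro b hb
      obtain ⟨a, ha, hab⟩ := h.bij.surjOn hb
      exact ⟨a, ha, hab⟩
  have h2 : B = (mix K o k n)ᶜ := by
    apply eq_of_subset_of_card_le h.right
    rw [card_mix_compl hK ho hd, hB, hA]
  refine ⟨h1, ?_⟩
  rw [sum_sub_distrib, sum_sub_distrib, h1]
  congr 1
  have e1 : ∑ a ∈ mix K o k n, ((φ a).card : ℝ) = ∑ b ∈ B, (b.card : ℝ) := by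
    rw [← h1]
    apply sum_bij (fun a _ => φ a)
    · intro a ha
      exact h.bij.mapsTo ha
    · intro a ha b hb hab
      exact h.bij.injOn ha hb hab
    · intro b hb
      obtain ⟨a, ha, hab⟩ := h.bij.surjOn hb
      exact ⟨a, ha, hab⟩
    · intro a ha
      rfl
  have e2 : ∑ a ∈ mix K o k n, ((inv K o a).card : ℝ) = ∑ b ∈ B, (b.card : ℝ) := by
    rw [h2]
    apply sum_bij' (fun a _ => inv K o a) (fun a _ => inv K o a)
    · intro x hx
      rw [mem_compl, inv_mem hK ho hd x]
      simpa using hx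
    · intro x hx
      exact (inv_mem hK ho hd x).2 (mem_compl.1 hx)
    · intro x _
      exact inv_inv ho x
    · intro x _
      exact inv_inv ho x
    · intro x _
      rfl
  rw [e1, e2]

theorem separation_mix (hK : K.card = k) (ho : o ∉ K) (hd : d = k + (2 * n + 1)) :
    separation (mix K o k n) = (∑ x ∈ mix K o k n, (((inv K o x).card : ℝ) - (x.card : ℝ))) /
      ((mix K o k n).card : ℝ) := by
  unfold separation
  have : {t : ℝ | ∃ A B φ, IsMatchedPair (mix K o k n) A B φ ∧ A.card = dvol (mix K o k n) ∧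
      t = (∑ a ∈ A, (((φ a).card : ℝ) - (a.card : ℝ))) / (A.card : ℝ)} =
      {(∑ x ∈ mix K o k n, (((inv K o x).card : ℝ) - (x.card : ℝ))) /
      ((mix K o k n).card : ℝ)} := by
    ext t
    rw [Set.mem_singleton_iff]
    constructor
    · rintro ⟨A, B, φ, h1, h2, rfl⟩
      rw [dvol_mix hK ho hd] at h2
      obtain ⟨_, h3⟩ := cert_sum hK ho hd h1 h2
      rw [h3, h2]
    · rintro rfl
      obtain ⟨φ, hφ⟩ := exists_perfect hK ho hd
      refine ⟨_, _, φ, hφ, (dvol_mix hK ho hd).symm, ?_⟩
      rw [(cert_sum hK ho hd hφ rfl).2]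
  rw [this, csInf_singleton]

theorem sum_lower (hK : K.card = k) (hd : d = k + (2 * n + 1)) :
    ∑ x ∈ (univ : Finset (Cube d)).filter (fun x => K ⊆ x ∧ x.card ≤ k + n),
      ((k : ℤ) + d - 2 * x.card) = (2 * n + 1) * n.centralBinom := by
  have h1 : ∀ x ∈ (univ : Finset (Cube d)).filter (fun x => K ⊆ x ∧ x.card ≤ k + n),
      x.card - k ∈ range (n + 1) := by
    intro x hx
    obtain ⟨_, h2, h3⟩ := mem_filter.1 hx
    rw [mem_range]
    omega
  rw [← sum_fiberwise_of_maps_to h1]
  have h2 := Pool.Agent.X155.CubeMix.sum_choose_dev (2 * n) n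
  rw [Nat.centralBinom_eq_two_mul_choose]
  push_cast at h2 ⊢
  rw [← h2]
  refine sum_congr rfl fun i hi => ?_
  rw [mem_range] at hi
  have h3 : ((univ : Finset (Cube d)).filter (fun x => K ⊆ x ∧ x.card ≤ k + n)).filter
      (fun x => x.card - k = i) = (univ : Finset (Cube d)).filter
      (fun y => K ⊆ y ∧ y.card = k + i) := by
    ext x
    simp only [mem_filter, mem_univ, true_and]
    constructor
    · rintro ⟨⟨h4, h5⟩, h6⟩
      have : k ≤ x.card := hK ▸ card_le_card h4
      exact ⟨h4, by omega⟩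
    · rintro ⟨h4, h5⟩
      exact ⟨⟨h4, by omega⟩, by omega⟩
  rw [h3]
  have h4 : ∀ x ∈ (univ : Finset (Cube d)).filter (fun y => K ⊆ y ∧ y.card = k + i),
      ((k : ℤ) + d - 2 * x.card) = 2 * n + 1 - 2 * i := by
    intro x hx
    rw [(mem_filter.1 hx).2.2, hd]
    push_cast
    ring
  rw [sum_congr rfl h4, sum_const, nsmul_eq_mul,
    Pool.Agent.X155.CubeMix.card_supersets K _ (by omega), hK]
  have e1 : d - k = 2 * n + 1 := by omega
  have e2 : k + i - k = i := by omega
  rw [e1, e2]

theorem total_mix (hK : K.card = k) (ho : o ∉ K) (hd : d = k + (2 * n + 1)) :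
    ∃ N : ℕ, N ≤ (mix K o k n).card ∧
      (∑ x ∈ mix K o k n, (((inv K o x).card : ℝ) - (x.card : ℝ))) =
        N + (2 * n + 1) * n.centralBinom := by
  refine ⟨((mix K o k n).filter (fun x => ¬ K ⊆ x)).card, card_filter_le _ _, ?_⟩
  rw [← sum_filter_add_sum_filter_not (mix K o k n) (fun x => ¬ K ⊆ x)]
  congr 1
  · rw [card_eq_sum_ones]
    push_cast
    refine sum_congr rfl fun x hx => ?_
    obtain ⟨h1, h2⟩ := mem_filter.1 hx
    rw [mem_mix, if_neg h2] at h1
    unfold inv
    rw [if_neg h2]
    have h3 : symmDiff x {o} = insert o x := by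
      ext i
      rw [mem_symmDiff, mem_singleton, mem_insert]
      constructor
      · rintro (⟨h3, _⟩ | ⟨h3, _⟩)
        · exact Or.inr h3
        · exact Or.inl h3
      · rintro (rfl | h3)
        · exact Or.inr ⟨rfl, h1⟩
        · left
          refine ⟨h3, ?_⟩
          rintro rfl
          exact h1 h3
    rw [h3, card_insert_of_notMem h1]
    push_cast
    ring
  · have e := sum_lower (n := n) hK hd
    have e' := congrArg (Int.cast : ℤ → ℝ) e
    push_cast at e'
    rw [← e']
    apply sum_congr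
    · ext x
      simp only [mem_filter, mem_univ, true_and, not_not, mem_mix]
      constructor
      · rintro ⟨h1, h2⟩
        rw [if_pos h2] at h1
        exact ⟨h2, h1⟩
      · rintro ⟨h1, h2⟩
        rw [if_pos h1]
        exact ⟨h2, h1⟩
    · intro x hx
      obtain ⟨_, h1, h2⟩ := mem_filter.1 hx
      unfold inv
      rw [if_pos h1]
      have h3 := card_union_compl hK h1
      have h4 : ((K ∪ xᶜ).card : ℝ) + x.card = k + d := by exact_mod_cast h3
      linarith

theorem card_super (hK : K.card = k) (hd : d = k + (2 * n + 1)) :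
    ((univ : Finset (Cube d)).filter (fun y => K ⊆ y)).card = 2 ^ (2 * n + 1) := by
  have h1 : (univ : Finset (Cube d)).filter (fun y => K ⊆ y) = Icc K univ := by
    ext y
    simp
  have h2 : d - k = 2 * n + 1 := by omega
  rw [h1, Finset.card_Icc_finset (subset_univ _), card_univ, Fintype.card_fin, hK, h2]

/-- the cut bound -/
theorem cut_bound (hK : K.card = k) (hd : d = k + (2 * n + 1)) {cV : ℝ}
    {f : Cube d → Cube d → ℝ} {s t : Cube d → ℝ} (h : IsFlow (mix K o k n) 1 cV f s t) :
    ∑ x, s x ≤ cV * ((2 * n + 1).choose n : ℕ) + ((mix K o k n).card : ℝ) +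
      (k : ℝ) * 2 ^ (2 * n + 1) := by
  classical
  set S := mix K o k n with hS
  have h1 : ∑ x, s x = ∑ x ∈ S, s x := by
    symm
    apply sum_subset (subset_univ _)
    intro x _ hx
    exact h.s_supp x hx
  have h2 : ∀ x ∈ S, s x = ∑ y, f x y - ∑ y, f y x := by
    intro x hx
    have e1 := h.conserve x
    rw [h.t_supp x hx] at e1
    linarith
  have h3 : ∑ x ∈ S, s x ≤ ∑ x ∈ S, ∑ y ∈ Sᶜ, f x y := by
    rw [sum_congr rfl h2, sum_sub_distrib]
    have e1 : ∀ g : Cube d → ℝ, ∑ y, g y = ∑ y ∈ S, g y + ∑ y ∈ Sᶜ, g y := fun g =>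
      (sum_add_sum_compl S g).symm
    have e2 : ∑ x ∈ S, ∑ y, f x y = ∑ x ∈ S, ∑ y ∈ S, f x y + ∑ x ∈ S, ∑ y ∈ Sᶜ, f x y := by
      rw [← sum_add_distrib]
      exact sum_congr rfl fun x _ => e1 _
    have e3 : ∑ x ∈ S, ∑ y, f y x = ∑ x ∈ S, ∑ y ∈ S, f y x + ∑ x ∈ S, ∑ y ∈ Sᶜ, f y x := by
      rw [← sum_add_distrib]
      exact sum_congr rfl fun x _ => e1 _
    have e4 : ∑ x ∈ S, ∑ y ∈ S, f y x = ∑ x ∈ S, ∑ y ∈ S, f x y := sum_comm
    have e5 : 0 ≤ ∑ x ∈ S, ∑ y ∈ Sᶜ, f y x :=
      sum_nonneg fun x _ => sum_nonneg fun y _ => h.f_nonneg y x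
    rw [e2, e3, e4]
    linarith
  have hcap : ∀ x, ∑ y ∈ Sᶜ, f x y ≤ cV := by
    intro x
    have e1 : ∑ y ∈ Sᶜ, f x y ≤ ∑ y, f x y :=
      sum_le_sum_of_subset_of_nonneg (subset_univ _) fun y _ _ => h.f_nonneg x y
    have e2 := h.conserve x
    have e3 := h.vertex_cap x
    have e4 := h.t_nonneg x
    linarith
  -- split according to `K ⊆ x`
  have h4 : ∑ x ∈ S, ∑ y ∈ Sᶜ, f x y = ∑ x ∈ S.filter (fun x => K ⊆ x), ∑ y ∈ Sᶜ, f x y +
      ∑ x ∈ S.filter (fun x => ¬ K ⊆ x), ∑ y ∈ Sᶜ, f x y :=
    (sum_filter_add_sum_filter_not S (fun x => K ⊆ x) _).symm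
  have h5 : ∑ x ∈ S.filter (fun x => K ⊆ x), ∑ y ∈ Sᶜ, f x y ≤
      cV * ((2 * n + 1).choose n : ℕ) := by
    have e1 : ∑ x ∈ S.filter (fun x => K ⊆ x), ∑ y ∈ Sᶜ, f x y =
        ∑ x ∈ (univ : Finset (Cube d)).filter (fun x => K ⊆ x ∧ x.card = k + n),
          ∑ y ∈ Sᶜ, f x y := by
      symm
      apply sum_subset
      · intro x hx
        obtain ⟨_, e2, e3⟩ := mem_filter.1 hx
        rw [mem_filter, hS, mem_mix, if_pos e2]
        exact ⟨e3.le, e2⟩
      · intro x hx hx2
        obtain ⟨e2, e3⟩ := mem_filter.1 hx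
        rw [hS, mem_mix, if_pos e3] at e2
        have e4 : x.card ≠ k + n := fun e => hx2 (mem_filter.2 ⟨mem_univ _, e3, e⟩)
        apply sum_eq_zero
        intro y hy
        apply h.f_edge
        rintro ⟨i, hi, rfl⟩
        rw [mem_compl, hS, mem_mix, if_pos (e3.trans (subset_insert _ _)),
          card_insert_of_notMem hi] at hy
        omega
    rw [e1]
    have e2 : ∀ x ∈ (univ : Finset (Cube d)).filter (fun x => K ⊆ x ∧ x.card = k + n),
        ∑ y ∈ Sᶜ, f x y ≤ cV := fun x _ => hcap x
    refine (sum_le_card_nsmul _ _ _ e2).trans ?_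
    rw [nsmul_eq_mul, Pool.Agent.X155.CubeMix.card_supersets K _ (by omega), hK]
    have e3 : d - k = 2 * n + 1 := by omega
    have e4 : k + n - k = n := by omega
    rw [e3, e4, mul_comm]
  have h6 : ∑ x ∈ S.filter (fun x => ¬ K ⊆ x), ∑ y ∈ Sᶜ, f x y ≤
      ((mix K o k n).card : ℝ) + (k : ℝ) * 2 ^ (2 * n + 1) := by
    have e1 : ∀ x ∈ S.filter (fun x => ¬ K ⊆ x), ∑ y ∈ Sᶜ, f x y ≤
        1 + ∑ y ∈ (univ : Finset (Cube d)).filter (fun y => K ⊆ y),
          (if Edge x y then (1 : ℝ) else 0) := by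
      intro x hx
      obtain ⟨e2, e3⟩ := mem_filter.1 hx
      rw [hS, mem_mix, if_neg e3] at e2
      have e4 : ∀ y ∈ Sᶜ, f x y ≤ (if y = insert o x then (1 : ℝ) else 0) +
          (if K ⊆ y then (if Edge x y then (1 : ℝ) else 0) else 0) := by
        intro y hy
        by_cases hE : Edge x y
        · by_cases hKy : K ⊆ y
          · rw [if_pos hKy, if_pos hE]
            have := h.edge_cap x y
            have h0 : (0 : ℝ) ≤ (if y = insert o x then (1 : ℝ) else 0) := by
              split_ifs <;> norm_num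
            linarith
          · rw [if_neg hKy]
            rw [mem_compl, hS, mem_mix, if_neg hKy, not_not] at hy
            have : y = insert o x := by
              obtain ⟨i, hi, rfl⟩ := hE
              rcases mem_insert.1 hy with e5 | e5
              · rw [e5]
              · exact absurd e5 e2
            rw [if_pos this]
            have := h.edge_cap x y
            linarith
        · rw [h.f_edge x y hE]
          split_ifs <;> norm_num
      refine (sum_le_sum e4).trans ?_
      rw [sum_add_distrib]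
      apply add_le_add
      · refine (sum_le_sum_of_subset_of_nonneg (subset_univ _) fun y _ _ => ?_).trans ?_
        · split_ifs <;> norm_num
        · rw [sum_ite_eq' univ (insert o x) (fun _ => (1 : ℝ))]
          simp
      · rw [sum_filter]
        apply sum_le_sum_of_subset_of_nonneg (subset_univ _)
        intro y _ _
        split_ifs <;> norm_num
    refine (sum_le_sum e1).trans ?_
    rw [sum_add_distrib]
    apply add_le_add
    · rw [sum_const, nsmul_eq_mul, mul_one]
      exact_mod_cast card_filter_le _ _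
    · rw [sum_comm]
      have e2 : ∀ y ∈ (univ : Finset (Cube d)).filter (fun y => K ⊆ y),
          ∑ x ∈ S.filter (fun x => ¬ K ⊆ x), (if Edge x y then (1 : ℝ) else 0) ≤ (k : ℝ) := by
        intro y hy
        have hKy := (mem_filter.1 hy).2
        rw [← sum_filter, sum_const, nsmul_eq_mul, mul_one]
        have e3 : (S.filter (fun x => ¬ K ⊆ x)).filter (fun x => Edge x y) ⊆
            K.image (fun i => y.erase i) := by
          intro x hx
          obtain ⟨e4, i, hi, rfl⟩ := mem_filter.1 hx
          have e5 := (mem_filter.1 e4).2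
          rw [mem_image]
          refine ⟨i, ?_, erase_insert hi⟩
          by_contra hiK
          apply e5
          intro j hj
          rcases mem_insert.1 (hKy hj) with e6 | e6
          · exact absurd (e6 ▸ hj) hiK
          · exact e6
        have e4 := (card_le_card e3).trans card_image_le
        rw [hK] at e4
        exact_mod_cast e4
      refine (sum_le_card_nsmul _ _ _ e2).trans ?_
      rw [nsmul_eq_mul, card_super hK hd]
      push_cast
      rw [mul_comm]
  rw [h1]
  linarith

end construction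

/-- **The answer to Q1 is negative.** For every `c > 0` there are `d ≥ 2` and `S ⊆ {0,1}^d` with
`dvol(S) ≥ 1` and separation distance `r` such that the maxflow of the network for `S` with unit
edge capacities and vertex capacities `r²` is smaller than `c r dvol(S)`. -/
theorem result : ∀ c : ℝ, 0 < c → ∃ d : ℕ, 2 ≤ d ∧ ∃ S : Finset (Cube d), 1 ≤ dvol S ∧
    maxflow S 1 (separation S ^ 2) < c * separation S * (dvol S : ℝ) := by
  intro c hc
  obtain ⟨k, hk⟩ := pow_unbounded_of_one_lt (8 / c) (one_lt_two : (1 : ℝ) < 2)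
  obtain ⟨n0, hn0⟩ := exists_nat_gt (((2 / c) * (2 ^ k + 2 * k)) ^ 2)
  set n := n0 + 1 with hn
  have hn1 : 1 ≤ n := by omega
  have hnn : ((2 / c) * (2 ^ k + 2 * k)) ^ 2 < (n : ℝ) := by
    rw [hn]; push_cast; linarith
  set d := k + (2 * n + 1) with hd
  have hd0 : 0 < d := by omega
  let o : Fin d := ⟨0, hd0⟩
  obtain ⟨K, hKs, hK⟩ := exists_subset_card_eq (s := (univ : Finset (Fin d)).erase o) (n := k)
    (by rw [card_erase_of_mem (mem_univ _), card_univ, Fintype.card_fin]; omega)
  have ho : o ∉ K := fun h => by simpa using hKs h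
  have hcard := card_mix (n := n) hK ho rfl
  have hdv := dvol_mix (n := n) hK ho rfl
  have hsep := separation_mix (n := n) hK ho rfl
  obtain ⟨N, hN, htot⟩ := total_mix (n := n) hK ho rfl
  have hpos : 0 < (mix K o k n).card := by rw [hcard]; positivity
  refine ⟨d, by omega, mix K o k n, by rw [hdv]; exact hpos, ?_⟩
  -- real numbers
  set a : ℝ := 2 ^ k with ha
  set M : ℝ := 4 ^ n with hM
  set Cb : ℝ := (n.centralBinom : ℝ) with hCb
  have haM : ((mix K o k n).card : ℝ) = a * M := by rw [hcard]; push_cast; rfl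
  have ha1 : 1 ≤ a := one_le_pow₀ (by norm_num)
  have hM0 : 0 < M := by positivity
  have hCb0 : 0 < Cb := by
    have := Nat.centralBinom_pos n
    rw [hCb]; exact_mod_cast this
  have hCbM : Cb ≤ M := by
    have := Nat.centralBinom_le_four_pow n
    rw [hCb, hM]; exact_mod_cast this
  have hup : (2 * (n : ℝ) + 1) * Cb ^ 2 ≤ M ^ 2 := by
    have h := Pool.Agent.X155.CubeMix.centralBinom_upper n
    have h' : (((2 * n + 1) * (n.centralBinom) ^ 2 : ℕ) : ℝ) ≤ ((16 ^ n : ℕ) : ℝ) := by
      exact_mod_cast h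
    push_cast at h'
    have : M ^ 2 = 16 ^ n := by
      rw [hM, ← pow_mul, mul_comm, pow_mul]; norm_num
    rw [this]; exact h'
  have hlo : M ^ 2 ≤ 4 * (n : ℝ) * Cb ^ 2 := by
    have h := Pool.Agent.X155.CubeMix.centralBinom_lower n hn1
    have h' : ((16 ^ n : ℕ) : ℝ) ≤ ((4 * n * (n.centralBinom) ^ 2 : ℕ) : ℝ) := by
      exact_mod_cast h
    push_cast at h'
    have : M ^ 2 = 16 ^ n := by
      rw [hM, ← pow_mul, mul_comm, pow_mul]; norm_num
    rw [this]; exact h'
  have hch : (((2 * n + 1).choose n : ℕ) : ℝ) ≤ 2 * Cb := by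
    have h : (2 * n + 1).choose n ≤ 2 * n.centralBinom := by
      rw [hn, Nat.choose_succ_succ]
      have h1 := Nat.choose_le_centralBinom n0 (n0 + 1)
      have h2 := Nat.choose_le_centralBinom (n0 + 1) (n0 + 1)
      simp only [Nat.succ_eq_add_one]
      omega
    rw [hCb]; exact_mod_cast h
  set r : ℝ := separation (mix K o k n) with hr
  have hrv : r * (a * M) = N + (2 * n + 1) * Cb := by
    rw [hsep, htot, haM]
    field_simp
  have hNr : (N : ℝ) ≤ a * M := by rw [← haM]; exact_mod_cast hN
  have hN0 : (0 : ℝ) ≤ N := by positivity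
  have haM0 : 0 < a * M := by positivity
  have hn0' : (0 : ℝ) < 2 * n + 1 := by positivity
  have hrpos : 0 < r := by
    by_contra hcon
    push Not at hcon
    have : r * (a * M) ≤ 0 := mul_nonpos_of_nonpos_of_nonneg hcon haM0.le
    have h2 : 0 < (2 * (n : ℝ) + 1) * Cb := by positivity
    linarith
  -- `r * choose ≤ 4 M`
  have h1 : r * (((2 * n + 1).choose n : ℕ) : ℝ) ≤ 4 * M := by
    have e1 : r * (a * M) ≤ a * M + (2 * n + 1) * Cb := by linarith
    have e2 : (r * (2 * Cb)) * (a * M) ≤ (4 * M) * (a * M) := by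
      calc (r * (2 * Cb)) * (a * M) = 2 * Cb * (r * (a * M)) := by ring
        _ ≤ 2 * Cb * (a * M + (2 * n + 1) * Cb) := by
            apply mul_le_mul_of_nonneg_left e1; positivity
        _ = 2 * Cb * (a * M) + 2 * ((2 * n + 1) * Cb ^ 2) := by ring
        _ ≤ 2 * M * (a * M) + 2 * M ^ 2 := by
            have : Cb * (a * M) ≤ M * (a * M) := mul_le_mul_of_nonneg_right hCbM haM0.le
            linarith
        _ ≤ (4 * M) * (a * M) := by
            nlinarith [mul_le_mul_of_nonneg_right ha1 (by positivity : (0:ℝ) ≤ M ^ 2)]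
    have e3 : r * (2 * Cb) ≤ 4 * M := le_of_mul_le_mul_right e2 haM0
    exact (mul_le_mul_of_nonneg_left hch hrpos.le).trans e3
  have hac : 8 < c * a := by
    have := (div_lt_iff₀ hc).1 hk
    linarith
  have h2 : r ^ 2 * (((2 * n + 1).choose n : ℕ) : ℝ) ≤ (c / 2) * (r * (a * M)) := by
    calc r ^ 2 * (((2 * n + 1).choose n : ℕ) : ℝ) = r * (r * (((2 * n + 1).choose n : ℕ) : ℝ)) := by
          ring
      _ ≤ r * (4 * M) := mul_le_mul_of_nonneg_left h1 hrpos.le
      _ ≤ r * ((c / 2 * a) * M) := by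
          apply mul_le_mul_of_nonneg_left _ hrpos.le
          apply mul_le_mul_of_nonneg_right _ hM0.le
          linarith
      _ = (c / 2) * (r * (a * M)) := by ring
  -- the remaining part
  have h3 : a + 2 * k < (c / 2) * ((2 * n + 1) * Cb / M) := by
    set X : ℝ := (2 * n + 1) * Cb / M with hX
    have hX0 : 0 < X := by positivity
    have e1 : (n : ℝ) ≤ X ^ 2 := by
      rw [hX, div_pow, le_div_iff₀ (by positivity)]
      calc (n : ℝ) * M ^ 2 ≤ n * (4 * n * Cb ^ 2) :=
            mul_le_mul_of_nonneg_left hlo (by positivity)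
        _ = (4 * n ^ 2) * Cb ^ 2 := by ring
        _ ≤ (2 * n + 1) ^ 2 * Cb ^ 2 := by
            apply mul_le_mul_of_nonneg_right _ (sq_nonneg _)
            have : (0 : ℝ) ≤ n := by positivity
            linarith [sq_nonneg ((n : ℝ))]
        _ = ((2 * n + 1) * Cb) ^ 2 := by ring
    have e2 : (2 / c) * (a + 2 * k) < X := by
      apply lt_of_pow_lt_pow_left₀ 2 hX0.le
      exact lt_of_lt_of_le hnn e1
    have e3 : (c / 2) * ((2 / c) * (a + 2 * k)) < (c / 2) * X :=
      mul_lt_mul_of_pos_left e2 (by positivity)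
    have e4 : (c / 2) * ((2 / c) * (a + 2 * k)) = a + 2 * k := by
      field_simp
    linarith
  have h4 : a * M + (k : ℝ) * 2 ^ (2 * n + 1) < (c / 2) * (r * (a * M)) := by
    have e1 : (2 : ℝ) ^ (2 * n + 1) = 2 * M := by
      rw [hM, pow_succ, pow_mul]; norm_num; ring
    have e2 : (a + 2 * k) * M < (c / 2) * ((2 * n + 1) * Cb) := by
      have := mul_lt_mul_of_pos_right h3 hM0
      have e3 : (c / 2) * ((2 * n + 1) * Cb / M) * M = (c / 2) * ((2 * n + 1) * Cb) := by
        field_simp
      linarith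
    have e4 : (c / 2) * ((2 * n + 1) * Cb) ≤ (c / 2) * (r * (a * M)) := by
      apply mul_le_mul_of_nonneg_left _ (by positivity)
      linarith
    have e5 : a * M + (k : ℝ) * (2 * M) = (a + 2 * k) * M := by ring
    rw [e1, e5]
    linarith
  have h5 : maxflow (mix K o k n) 1 (r ^ 2) ≤ r ^ 2 * (((2 * n + 1).choose n : ℕ) : ℝ) +
      a * M + (k : ℝ) * 2 ^ (2 * n + 1) := by
    unfold maxflow
    apply csSup_le
    · refine ⟨0, fun _ _ => 0, fun _ => 0, fun _ => 0, ?_, by simp⟩
      constructor <;> intros <;> simp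
      positivity
    · rintro v ⟨f, s, t, hf, rfl⟩
      have := cut_bound hK rfl hf
      rw [haM] at this
      exact this
  have h6 : c * r * (a * M) = (c / 2) * (r * (a * M)) + (c / 2) * (r * (a * M)) := by ring
  rw [hdv, haM, h6]
  linarith

end Pool.Agent.Results.MP_02b125_co.MixtureCounterexample
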